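import Mathlib
import Pool.Agent.Helper376.LC.Defs
import Pool.Agent.Helper376.LC.Sanity
import Pool.Agent.Helper376.LC.Final2

/-! A finitely generated discrete group of isometries of a proper geodesic Gromov hyperbolic space
whose limit set is connected but not locally connected. -/

namespace Pool.Agent.Results.MP_c915fc_gt.NotLocallyConnected

open Pool.Agent.Helper376.LC

/-- Sanity check: the topology of the boundary is the usual one, that is, in a Gromov hyperbolic
space the sets of all boundary points whose Gromov product with `ξ` is at least `R` form a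
neighbourhood basis at `ξ`. -/
theorem boundary_nhds {X : Type} [MetricSpace X] (hhyp : GromovHyperbolic X) (o : X)
    (ξ : Boundary X) (U : Set (Boundary X)) :
    U ∈ nhds ξ ↔ ∃ R : ℝ, ∀ η, Near o R ξ η → η ∈ U :=
  mem_nhds_boundary_iff hhyp o ξ U

/-- Sanity check: two sequences converging to infinity define the same boundary point if and only
if they are equivalent. -/
theorem lim_eq_iff {X : Type} [MetricSpace X] (hhyp : GromovHyperbolic X)
    (u v : GromovSeq X) : u.lim = v.lim ↔ u.Equiv v :=
  GromovSeq.lim_eq_iff hhyp u v

theorem result :
    ∃ (X : Type) (_ : MetricSpace X) (G : Type) (_ : Group G) (_ : MulAction G X),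
      Nonempty X ∧ ProperSpace X ∧ GeodesicSpace X ∧ GromovHyperbolic X ∧
      Group.FG G ∧
      (∀ (g : G) (x y : X), dist (g • x) (g • y) = dist x y) ∧
      (∀ K : Set X, IsCompact K → {g : G | ((fun x => g • x) '' K ∩ K).Nonempty}.Finite) ∧
      ∀ x : X, IsConnected (limitSet G x) ∧ ¬ LocallyConnectedSpace (limitSet G x) :=
  main_result

end Pool.Agent.Results.MP_c915fc_gt.NotLocallyConnected
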